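import Pool.Agent.Helper87.FX.StB

set_option autoImplicit false

namespace Pool.Agent.Helper76.FX

open Pool.Agent.Helper87.FX
open Set Topology Metric Filter
open scoped ContDiff

theorem hPSH : StAMB → StPSH := by
  intro hAMB E V _ _ _ _ Y U0 e0 K G hU0 he0 hr hK hKY hG hGK
  obtain ⟨H, hHs, hHp, hHG, hGH⟩ := hG.inv
  have hGs := hG.sm
  -- the parameter `l`
  have hcont : Continuous (fun q : ℝ × (V × V) => G (q.1 • q.2.2 + q.2.1) q.2.1) := by
    have h1 : Continuous (fun z : V × V => G z.1 z.2) := hGs.continuous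
    have h2 : Continuous (fun q : ℝ × (V × V) => ((q.1 • q.2.2 + q.2.1, q.2.1) : V × V)) := by
      fun_prop
    exact h1.comp h2
  have hev : ∀ᶠ l in 𝓝 (0 : ℝ), ∀ z ∈ K, G (l • z.2 + z.1) z.1 ∈ U0 := by
    refine hK.eventually_forall_of_forall_eventually
      (P := fun (l : ℝ) (z : V × V) => G (l • z.2 + z.1) z.1 ∈ U0) (fun z hz => ?_)
    have h3 : (fun q : ℝ × (V × V) => G (q.1 • q.2.2 + q.2.1) q.2.1) (0, z) ∈ U0 := by
      simp only [zero_smul, zero_add]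
      exact hGK z hz
    exact hcont.continuousAt.eventually (hU0.mem_nhds h3)
  obtain ⟨ε, hε, hεl⟩ := Metric.eventually_nhds_iff.1 hev
  have hl0 : (0 : ℝ) < ε / 2 := by positivity
  have hlK := hεl (y := ε / 2) (by
    rw [Real.dist_eq, sub_zero, abs_of_pos hl0]; linarith)
  generalize ε / 2 = l at hl0 hlK
  have hl1 : l ≠ 0 := hl0.ne'
  -- the two maps
  let Ψ : V × V → V × V := fun z => (G (l • z.2 + z.1) z.1, l • z.2 + z.1)
  let Φ : V × V → V × V := fun z => (H z.2 z.1, l⁻¹ • (z.2 - H z.2 z.1))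
  have hΨ : ContDiff ℝ ∞ Ψ := by
    have h1 : ContDiff ℝ ∞ (fun z : V × V => l • z.2 + z.1) :=
      (contDiff_snd.const_smul l).add contDiff_fst
    exact (hGs.comp (h1.prodMk contDiff_fst)).prodMk h1
  have hΦ : ContDiff ℝ ∞ Φ := by
    have h1 : ContDiff ℝ ∞ (fun z : V × V => H z.2 z.1) :=
      hHs.comp (contDiff_snd.prodMk contDiff_fst)
    exact h1.prodMk ((contDiff_snd.sub h1).const_smul l⁻¹)
  have hΨΦ : ∀ z, Ψ (Φ z) = z := by
    rintro ⟨a, b⟩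
    have h1 : l • (l⁻¹ • (b - H b a)) + H b a = b := by
      rw [smul_smul, mul_inv_cancel₀ hl1, one_smul, sub_add_cancel]
    simp only [Ψ, Φ, h1, hGH]
  have hΦΨ : ∀ z, Φ (Ψ z) = z := by
    rintro ⟨a, b⟩
    simp only [Ψ, Φ, hHG]
    rw [add_sub_cancel_right, smul_smul, inv_mul_cancel₀ hl1, one_smul]
  have hiff : ∀ z, z ∈ Y ×ˢ (univ : Set V) ↔ Φ z ∈ Y ×ˢ (univ : Set V) := by
    rintro ⟨a, b⟩
    constructor
    · intro h
      exact ⟨hHp b a h.1, mem_univ _⟩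
    · intro h
      refine ⟨?_, mem_univ _⟩
      have h1 : G b (H b a) ∈ Y := hG.pres b _ h.1
      rw [hGH] at h1
      exact h1
  refine ⟨fun x => Φ (e0 x), hAMB E (V × V) (V × V) _ _ e0 Φ Ψ hΦ hΨ hΨΦ hΦΨ hiff he0, ?_⟩
  intro z hz
  have h1 : Ψ z ∈ range e0 := by
    rw [hr]
    exact ⟨⟨hG.pres _ _ (hKY hz).1, hlK z hz⟩, mem_univ _⟩
  obtain ⟨x, hx⟩ := h1
  exact ⟨x, by simp only [hx, hΦΨ]⟩

end Pool.Agent.Helper76.FX
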