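import Pool.Agent.Helper84.FX.StX

set_option autoImplicit false

namespace Pool.Agent.Helper76.FX

open Set Pool.Agent.Helper84.FX Pool.Agent.Helper72.FX

/-- scale the coordinates `n, x, y, w` by `c` -/
private noncomputable def b0sc (c : ℂ) (z : Fin 10 → ℂ) : Fin 10 → ℂ :=
  fun i => if i = 4 ∨ i = 7 ∨ i = 8 ∨ i = 9 then c * z i else z i

private lemma b0sc_ev (c : ℂ) (z : Fin 10 → ℂ) :
    b0sc c z 0 = z 0 ∧ b0sc c z 1 = z 1 ∧ b0sc c z 2 = z 2 ∧ b0sc c z 3 = z 3 ∧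
    b0sc c z 4 = c * z 4 ∧ b0sc c z 5 = z 5 ∧ b0sc c z 6 = z 6 ∧ b0sc c z 7 = c * z 7 ∧
    b0sc c z 8 = c * z 8 ∧ b0sc c z 9 = c * z 9 := by
  refine ⟨?_, ?_, ?_, ?_, ?_, ?_, ?_, ?_, ?_, ?_⟩ <;> simp [b0sc]

private lemma b0sc_one (z : Fin 10 → ℂ) : b0sc 1 z = z := by
  funext i
  simp [b0sc]

private lemma b0sc_fix (c : ℂ) (z : Fin 10 → ℂ) (h4 : z 4 = 0) (h7 : z 7 = 0) (h8 : z 8 = 0)
    (h9 : z 9 = 0) : b0sc c z = z := by
  funext i
  unfold b0sc
  split_ifs with h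
  · rcases h with h | h | h | h <;> subst h
    · rw [h4, mul_zero]
    · rw [h7, mul_zero]
    · rw [h8, mul_zero]
    · rw [h9, mul_zero]
  · rfl

private lemma b0sc_cont : Continuous (fun q : ℂ × (Fin 10 → ℂ) => b0sc q.1 q.2) := by
  refine continuous_pi (fun i => ?_)
  unfold b0sc
  by_cases h : i = 4 ∨ i = 7 ∨ i = 8 ∨ i = 9
  · simp only [h, if_true]
    fun_prop
  · simp only [h, if_false]
    fun_prop

private lemma b0_WW (U : Set ℂ) (c : ℂ) (z : Fin 10 → ℂ) (hz : z ∈ WW U) (h3 : z 3 = 0) :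
    b0sc c z ∈ WW U ∧ b0sc c z 3 = 0 := by
  obtain ⟨e0, e1, e2, e3, e4, e5, e6, e7, e8, e9⟩ := b0sc_ev c z
  obtain ⟨hU, hE1, hE2⟩ := hz
  refine ⟨⟨?_, ?_, ?_⟩, ?_⟩
  · rw [e2]; exact hU
  · unfold EE1 E1 at hE1 ⊢
    rw [e0, e1, e2, e3, e4, e5, e6, h3]
    rw [h3] at hE1
    linear_combination hE1
  · unfold EE2 E2 at hE2 ⊢
    rw [e0, e1, e2, e3, e4, e5, e6, e7, e8, e9, h3]
    rw [h3] at hE2
    generalize kappa (z 0) (z 1) (z 2) = K at hE2 ⊢
    generalize kx (z 0) (z 1) (z 2) = K1 at hE2 ⊢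
    generalize ky (z 0) (z 1) (z 2) = K2 at hE2 ⊢
    generalize kz (z 0) (z 1) (z 2) = K3 at hE2 ⊢
    linear_combination c * hE2
  · rw [e3, h3]

theorem hB0 : StHEQ → StCMP → StCN2 → StCGR → StDMP → StKSM → StB0 := by
  intro hHEQ _ hCN2 _ hDMP _ U
  -- the common model
  let L : Set (Fin 10 → ℂ) := {z | (z ∈ WW U ∧ z 3 = 0) ∧ z 4 = 0 ∧ z 7 = 0 ∧ z 8 = 0 ∧ z 9 = 0}
  let A : Set ((Fin 10 → ℂ) × ℝ) := {q | q ∈ DM (N1 U) (N2 U) ∧ q.1 3 = 0}
  let B : Set (Fin 10 → ℂ) := {z | z ∈ WW U ∧ z 3 = 0}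
  have hcont0 : Continuous (b0sc 0) :=
    b0sc_cont.comp (continuous_const.prodMk continuous_id)
  have hLfix : ∀ z ∈ L, b0sc 0 z = z := fun z hz =>
    b0sc_fix 0 z hz.2.1 hz.2.2.1 hz.2.2.2.1 hz.2.2.2.2
  have hBL : ∀ z ∈ B, b0sc 0 z ∈ L := by
    intro z hz
    obtain ⟨e0, e1, e2, e3, e4, e5, e6, e7, e8, e9⟩ := b0sc_ev 0 z
    refine ⟨b0_WW U 0 z hz.1 hz.2, ?_, ?_, ?_, ?_⟩
    · rw [e4, zero_mul]
    · rw [e7, zero_mul]
    · rw [e8, zero_mul]
    · rw [e9, zero_mul]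
  have hAB : Mp A B Prod.fst := by
    refine ⟨continuous_fst.continuousOn, fun q hq => ⟨(hDMP U).1.2 hq.1, hq.2⟩⟩
  -- (i)
  have h1 : WE B L (b0sc 0) := by
    refine hHEQ _ _ B L (b0sc 0) id ⟨hcont0.continuousOn, hBL⟩
      ⟨continuous_id.continuousOn, fun z hz => hz.1⟩ ?_ ?_
    · refine ⟨fun q => b0sc (q.1 : ℂ) q.2, ⟨?_, ?_⟩, ?_, ?_⟩
      · exact (b0sc_cont.comp ((Complex.continuous_ofReal.comp continuous_fst).prodMk
          continuous_snd)).continuousOn
      · rintro ⟨τ, z⟩ ⟨-, hz⟩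
        exact b0_WW U _ z hz.1 hz.2
      · intro z _
        simp
      · intro z _
        simp [b0sc_one]
    · refine ⟨fun q => q.2, ⟨continuous_snd.continuousOn, fun q hq => hq.2⟩, ?_, ?_⟩
      · intro z hz
        exact (hLfix z hz).symm
      · intro z _
        rfl
  -- (ii)
  have h2 : WE A L (b0sc 0 ∘ Prod.fst) := by
    refine hHEQ _ _ A L (b0sc 0 ∘ Prod.fst) (fun z => (z, 0))
      ⟨(hcont0.comp continuous_fst).continuousOn, fun q hq => hBL _ (hAB.2 hq)⟩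
      ⟨(continuous_id.prodMk continuous_const).continuousOn, ?_⟩ ?_ ?_
    · rintro z ⟨⟨⟨hU, hE1, -⟩, h3⟩, h4, h7, h8, h9⟩
      refine ⟨⟨le_refl _, zero_le_one, fun _ => ?_, fun h => absurd h (lt_irrefl _)⟩, h3⟩
      refine ⟨hU, h4, h7, h8, h9, ?_⟩
      unfold EE1 E1 at hE1
      rw [h3] at hE1
      unfold nz
      linear_combination hE1
    · refine ⟨fun q => (b0sc ((max (2 * q.1 - 1) 0 : ℝ) : ℂ) q.2.1, min (2 * q.1) 1 * q.2.2),
        ⟨?_, ?_⟩, ?_, ?_⟩
      · apply Continuous.continuousOn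
        refine Continuous.prodMk ?_ (by fun_prop)
        exact b0sc_cont.comp ((Complex.continuous_ofReal.comp
          (by fun_prop : Continuous fun q : ℝ × ((Fin 10 → ℂ) × ℝ) => max (2 * q.1 - 1) 0)).prodMk
            (by fun_prop))
      · rintro ⟨τ, z, r⟩ ⟨hτ, ⟨⟨hr0, hr1, hN1, hN2⟩, h3⟩⟩
        simp only at hr0 hr1 hN1 hN2 h3
        show (b0sc ((max (2 * τ - 1) 0 : ℝ) : ℂ) z, min (2 * τ) 1 * r) ∈ A
        have hτ0 : 0 ≤ τ := hτ.1
        have hτ1 : τ ≤ 1 := hτ.2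
        have hm0 : 0 ≤ min (2 * τ) 1 := le_min (by linarith) zero_le_one
        have hm1 : min (2 * τ) 1 ≤ 1 := min_le_right _ _
        have hcm : min (2 * τ) 1 < 1 → max (2 * τ - 1) 0 = 0 := by
          intro h
          rcases min_lt_iff.1 h with h' | h'
          · exact max_eq_right (by linarith)
          · exact absurd h' (lt_irrefl _)
        generalize min (2 * τ) 1 = m at hm0 hm1 hcm
        generalize max (2 * τ - 1) 0 = c at hcm
        obtain ⟨e0, e1, e2, e3, e4, e5, e6, e7, e8, e9⟩ := b0sc_ev (c : ℂ) z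
        refine ⟨⟨mul_nonneg hm0 hr0, mul_le_one₀ hm1 hr0 hr1, ?_, ?_⟩, ?_⟩
        · intro hlt
          rcases lt_or_eq_of_le hr1 with h | h
          · have hz := hN1 h
            rw [show (b0sc (c : ℂ) z) = z from
              b0sc_fix _ z hz.2.1 hz.2.2.1 hz.2.2.2.1 hz.2.2.2.2.1]
            exact hz
          · have hm : m < 1 := by
              have h5 : m * r < 1 := hlt
              rw [h, mul_one] at h5
              exact h5
            have hc := hcm hm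
            obtain ⟨k2, k6, k7, k8, k9, kn⟩ := hN2 (by rw [h]; exact one_pos)
            show b0sc (c : ℂ) z ∈ N1 U
            refine ⟨?_, ?_, ?_, ?_, ?_, ?_⟩
            · rw [e2]; exact k2
            · rw [e4, hc]; simp
            · rw [e7, k7, mul_zero]
            · rw [e8, k8, mul_zero]
            · rw [e9, k9, mul_zero]
            · unfold nz at kn ⊢
              rw [e0, e1, e2, e5, e6, kn, h3, k6]
              ring
        · intro hlt
          have hr : 0 < r := by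
            rcases lt_or_eq_of_le hr0 with h | h
            · exact h
            · exfalso
              have h5 : 0 < m * r := hlt
              rw [← h, mul_zero] at h5
              exact lt_irrefl _ h5
          obtain ⟨k2, k6, k7, k8, k9, kn⟩ := hN2 hr
          show b0sc (c : ℂ) z ∈ N2 U
          refine ⟨?_, ?_, ?_, ?_, ?_, ?_⟩
          · rw [e2]; exact k2
          · rw [e6]; exact k6
          · rw [e7, k7, mul_zero]
          · rw [e8, k8, mul_zero]
          · rw [e9, k9, mul_zero]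
          · unfold nz at kn ⊢
            rw [e0, e1, e2, e3, e4, kn, h3]
            ring
        · show b0sc (c : ℂ) z 3 = 0
          rw [e3, h3]
      · rintro ⟨z, r⟩ _
        simp
      · rintro ⟨z, r⟩ _
        have h5 : max ((2:ℝ) * 1 - 1) 0 = 1 := by norm_num
        have h6 : min ((2:ℝ) * 1) 1 = 1 := by norm_num
        simp only [h5, h6, Complex.ofReal_one, b0sc_one, one_mul, id]
    · refine ⟨fun q => q.2, ⟨continuous_snd.continuousOn, fun q hq => hq.2⟩, ?_, ?_⟩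
      · intro z hz
        exact (hLfix z hz).symm
      · intro z _
        rfl
  exact hCN2 _ _ _ A B L Prod.fst (b0sc 0) hAB h1 h2

end Pool.Agent.Helper76.FX
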